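import Pool.Agent.Q274.BKL.Stm

/-!
# Project BKL (helper274): jobs ADD and KD
-/

set_option autoImplicit false

open Filter
open scoped Topology PeriodPair

namespace Pool.Agent.Q187.BKL

open H667R3 Pool.Agent.TH936.CM Pool.Agent.Q274.BKL
open Pool.Agent.TH936.CW (ek evz Pp Hh)
open Pool.Agent.Y698 (RR aR bR fR al bl tA tB LD e7 nR nI Inq qch)

variable {L : PeriodPair}

/-- `lw + 1/2` is the classical slope -/
lemma lw_eq {z w : ℂ} (h : ℘[L] z - ℘[L] w ≠ 0) :
    lw L z w = (℘'[L] z - ℘'[L] w) / (2 * (℘[L] z - ℘[L] w)) - 1 / 2 := by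
  unfold lw yw xw
  have e : ℘[L] z + 1 / 4 - (℘[L] w + 1 / 4) = ℘[L] z - ℘[L] w := by ring
  rw [e]
  field_simp
  ring

lemma wp_sub_ne {z w : ℂ} (hz : z ∉ L.lattice) (hw : w ∉ L.lattice) (h1 : z + w ∉ L.lattice)
    (h2 : z - w ∉ L.lattice) : ℘[L] z - ℘[L] w ≠ 0 := by
  rw [sub_ne_zero, Ne, wp_eq_iff L hz hw]
  tauto

/-- the slope and the zeta function -/
lemma lw_zeta {z w : ℂ} (hz : z ∉ L.lattice) (hw : w ∉ L.lattice) (h1 : z + w ∉ L.lattice)
    (h2 : z - w ∉ L.lattice) : lw L z w = zeta L (z + w) - zeta L z - zeta L w - 1 / 2 := by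
  rw [lw_eq (wp_sub_ne hz hw h1 h2), zeta_add L hz hw h1 h2]
  ring

/-- the addition formula of the `℘`-function, symmetric form -/
lemma wp_add' {z w : ℂ} (hz : z ∉ L.lattice) (hw : w ∉ L.lattice) (h1 : z + w ∉ L.lattice)
    (h2 : z - w ∉ L.lattice) :
    ℘[L] (z + w) = ((℘'[L] z - ℘'[L] w) / (2 * (℘[L] z - ℘[L] w))) ^ 2 - ℘[L] z - ℘[L] w := by
  have hne := wp_sub_ne hz hw h1 h2
  have hop : ∀ᶠ t in 𝓝 z, t ∉ L.lattice ∧ t + w ∉ L.lattice ∧ t - w ∉ L.lattice := by
    refine Filter.Eventually.and ((isOpen_compl L).mem_nhds hz) (?_)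
    have e1 : ∀ᶠ t in 𝓝 z, t + w ∉ L.lattice :=
      ((continuous_id.add continuous_const).continuousAt (x := z)).eventually
        ((isOpen_compl L).mem_nhds h1)
    have e2 : ∀ᶠ t in 𝓝 z, t - w ∉ L.lattice :=
      ((continuous_id.sub continuous_const).continuousAt (x := z)).eventually
        ((isOpen_compl L).mem_nhds h2)
    exact e1.and e2
  have hev : (fun t => (℘'[L] t - ℘'[L] w) / (2 * (℘[L] t - ℘[L] w))) =ᶠ[𝓝 z]
      fun t => zeta L (t + w) - zeta L t - zeta L w := by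
    filter_upwards [hop] with t ht
    rw [zeta_add L ht.1 hw ht.2.1 ht.2.2]
    ring
  have hd1 : HasDerivAt (fun t => zeta L (t + w) - zeta L t - zeta L w)
      (-℘[L] (z + w) - -℘[L] z) z := by
    have e1 : HasDerivAt (fun t => zeta L (t + w)) (-℘[L] (z + w)) z :=
      (hasDerivAt_zeta L h1).comp_add_const z w
    exact (e1.sub (hasDerivAt_zeta L hz)).sub_const _
  have hd2 : HasDerivAt (fun t => (℘'[L] t - ℘'[L] w) / (2 * (℘[L] t - ℘[L] w)))
      (((6 * ℘[L] z ^ 2 - L.g₂ / 2) * (2 * (℘[L] z - ℘[L] w)) -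
        (℘'[L] z - ℘'[L] w) * (2 * ℘'[L] z)) / (2 * (℘[L] z - ℘[L] w)) ^ 2) z := by
    have e1 := (Pool.Agent.TH936.CW.hasDerivAt_wp'_all L hz).sub_const (℘'[L] w)
    have e2 := ((hasDerivAt_weierstrassP L hz).sub_const (℘[L] w)).const_mul 2
    exact e1.div e2 (mul_ne_zero two_ne_zero hne)
  have h3 := (hd2.congr_of_eventuallyEq hev.symm).unique hd1
  have o1 := Pool.Agent.TH936.PU.ode hz
  have o2 := Pool.Agent.TH936.PU.ode hw
  have h4 : ℘[L] (z + w) = ℘[L] z - ((6 * ℘[L] z ^ 2 - L.g₂ / 2) * (2 * (℘[L] z - ℘[L] w)) -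
        (℘'[L] z - ℘'[L] w) * (2 * ℘'[L] z)) / (2 * (℘[L] z - ℘[L] w)) ^ 2 := by
    rw [h3]; ring
  rw [h4]
  generalize ℘[L] z = a at *
  generalize ℘[L] w = b at *
  generalize ℘'[L] z = a' at *
  generalize ℘'[L] w = b' at *
  field_simp
  linear_combination o1 - o2

theorem t_ADD : S_ADD := by
  intro L Ω q _ z w hz hw h1 h2
  have hne := wp_sub_ne hz hw h1 h2
  have hzl := lw_zeta hz hw h1 h2
  have hx : xw L (z + w) = lw L z w ^ 2 + lw L z w + 1 - xw L z - xw L w := by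
    rw [lw_eq hne]
    unfold xw
    rw [wp_add' hz hw h1 h2]
    ring
  refine ⟨?_, hx, ?_, ?_, ?_⟩
  · intro u u'
    rw [hzl]
    unfold Sw
    ring
  · unfold xw
    intro h
    apply hne
    linear_combination h
  · have hop : ∀ᶠ t in 𝓝 z, t ∉ L.lattice ∧ t + w ∉ L.lattice ∧ t - w ∉ L.lattice := by
      refine Filter.Eventually.and ((isOpen_compl L).mem_nhds hz) (?_)
      have e1 : ∀ᶠ t in 𝓝 z, t + w ∉ L.lattice :=
        ((continuous_id.add continuous_const).continuousAt (x := z)).eventually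
          ((isOpen_compl L).mem_nhds h1)
      have e2 : ∀ᶠ t in 𝓝 z, t - w ∉ L.lattice :=
        ((continuous_id.sub continuous_const).continuousAt (x := z)).eventually
          ((isOpen_compl L).mem_nhds h2)
      exact e1.and e2
    have hev : (fun t => lw L t w) =ᶠ[𝓝 z]
        fun t => zeta L (t + w) - zeta L t - zeta L w - 1 / 2 := by
      filter_upwards [hop] with t ht
      exact lw_zeta ht.1 hw ht.2.1 ht.2.2
    have hd1 : HasDerivAt (fun t => zeta L (t + w) - zeta L t - zeta L w - 1 / 2)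
        (-℘[L] (z + w) - -℘[L] z) z := by
      have e1 : HasDerivAt (fun t => zeta L (t + w)) (-℘[L] (z + w)) z :=
        (hasDerivAt_zeta L h1).comp_add_const z w
      exact ((e1.sub (hasDerivAt_zeta L hz)).sub_const _).sub_const _
    refine (hd1.congr_of_eventuallyEq hev).congr_deriv ?_
    have e : ℘[L] (z + w) = xw L (z + w) - 1 / 4 := by unfold xw; ring
    have e' : ℘[L] z = xw L z - 1 / 4 := by unfold xw; ring
    rw [e, e', hx]
    ring
  · have hop : ∀ᶠ t in 𝓝 w, t ∉ L.lattice ∧ z + t ∉ L.lattice ∧ z - t ∉ L.lattice := by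
      refine Filter.Eventually.and ((isOpen_compl L).mem_nhds hw) (?_)
      have e1 : ∀ᶠ t in 𝓝 w, z + t ∉ L.lattice :=
        ((continuous_const.add continuous_id).continuousAt (x := w)).eventually
          ((isOpen_compl L).mem_nhds h1)
      have e2 : ∀ᶠ t in 𝓝 w, z - t ∉ L.lattice :=
        ((continuous_const.sub continuous_id).continuousAt (x := w)).eventually
          ((isOpen_compl L).mem_nhds h2)
      exact e1.and e2
    have hev : (fun t => lw L z t) =ᶠ[𝓝 w]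
        fun t => zeta L (z + t) - zeta L z - zeta L t - 1 / 2 := by
      filter_upwards [hop] with t ht
      exact lw_zeta hz ht.1 ht.2.1 ht.2.2
    have hd1 : HasDerivAt (fun t => zeta L (z + t) - zeta L z - zeta L t - 1 / 2)
        (-℘[L] (z + w) - -℘[L] w) w := by
      have e1 : HasDerivAt (fun t => zeta L (z + t)) (-℘[L] (z + w)) w :=
        (hasDerivAt_zeta L h1).comp_const_add z w
      exact ((e1.sub_const _).sub (hasDerivAt_zeta L hw)).sub_const _
    refine (hd1.congr_of_eventuallyEq hev).congr_deriv ?_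
    have e : ℘[L] (z + w) = xw L (z + w) - 1 / 4 := by unfold xw; ring
    have e' : ℘[L] w = xw L w - 1 / 4 := by unfold xw; ring
    rw [e, e', hx]
    ring

/-- the logarithmic derivative of `H` in terms of `S` -/
lemma Xx_Sw (q u z : ℂ) : Pool.Agent.TH936.CW.Xx L (1 / 4) q u z = Sw L q u z - 1 / 2 := by
  unfold Pool.Agent.TH936.CW.Xx Sw
  ring

theorem t_KD : S_KD := by
  intro hadd L Ω q hLD u z w hz hw h1 h2
  obtain ⟨hS, -, -, -, -⟩ := hadd L Ω q hLD z w hz hw h1 h2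
  have n1 := Pool.Agent.TH936.CW.Hh_ne L (1 / 4) q u hz
  have n2 := Pool.Agent.TH936.CW.Hh_ne L (1 / 4) q 0 hw
  constructor
  · have d1 : HasDerivAt (fun t => Hh L (1 / 4) q u (t + w))
        (Pool.Agent.TH936.CW.Xx L (1 / 4) q u (z + w) * Hh L (1 / 4) q u (z + w)) z :=
      (Pool.Agent.TH936.CW.Hh_deriv L (1 / 4) q u h1).comp_add_const z w
    have d2 : HasDerivAt (fun t => Hh L (1 / 4) q u t * Hh L (1 / 4) q 0 w)
        (Pool.Agent.TH936.CW.Xx L (1 / 4) q u z * Hh L (1 / 4) q u z * Hh L (1 / 4) q 0 w) z :=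
      (Pool.Agent.TH936.CW.Hh_deriv L (1 / 4) q u hz).mul_const _
    have d3 := d1.div d2 (mul_ne_zero n1 n2)
    refine d3.congr_deriv ?_
    have h3 := hS u 0
    rw [add_zero] at h3
    rw [Xx_Sw, Xx_Sw, h3]
    unfold Kw
    field_simp
    ring
  · have d1 : HasDerivAt (fun t => Hh L (1 / 4) q u (z + t))
        (Pool.Agent.TH936.CW.Xx L (1 / 4) q u (z + w) * Hh L (1 / 4) q u (z + w)) w :=
      (Pool.Agent.TH936.CW.Hh_deriv L (1 / 4) q u h1).comp_const_add z w
    have d2 : HasDerivAt (fun t => Hh L (1 / 4) q u z * Hh L (1 / 4) q 0 t)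
        (Hh L (1 / 4) q u z * (Pool.Agent.TH936.CW.Xx L (1 / 4) q 0 w * Hh L (1 / 4) q 0 w)) w :=
      (Pool.Agent.TH936.CW.Hh_deriv L (1 / 4) q 0 hw).const_mul _
    have d3 := d1.div d2 (mul_ne_zero n1 n2)
    refine d3.congr_deriv ?_
    have h3 := hS u 0
    rw [add_zero] at h3
    rw [Xx_Sw, Xx_Sw, h3]
    unfold Kw
    field_simp
    ring

end Pool.Agent.Q187.BKL
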