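import Pool.Agent.Q187.BKL.Zb

/-!
# Project BKL (helper274): jobs BL and AL
-/

set_option autoImplicit false

open Filter
open scoped Topology PeriodPair

namespace Pool.Agent.Q187.BKL

open H667R3 Pool.Agent.W192.HK Pool.Agent.TH936.CM Pool.Agent.TH936.PU Pool.Agent.Q274.BKL
open Pool.Agent.Y698 (RR aR bR fR al bl tA tB LD al_ne bl_ne aR_coe bR_coe cX cY co aR_mul_bR
  tA_mem tB_mem tA_notMem tB_notMem two_tA two_tB isLat_neg_mem mul_al dwp_half ker_al al_sq)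

variable {L : PeriodPair} {Ω : ℂ}

lemma bl_inv : bl⁻¹ = al / 2 := by
  have h := Pool.Agent.Y698.al_mul_bl
  rw [inv_eq_one_div, div_eq_div_iff bl_ne two_ne_zero]
  linear_combination (-1 : ℂ) * h

lemma bl_eq : bl = 1 - al := rfl

lemma bl_not (hL : IsLat L RR Ω) {z : ℂ} (hz : bl * z ∉ L.lattice) :
    z ∉ L.lattice ∧ z - tB Ω ∉ L.lattice ∧ z + tB Ω ∉ L.lattice := by
  refine ⟨fun h1 => hz ?_, fun h1 => hz ?_, fun h1 => hz ?_⟩
  · have := hL.mul bR z h1
    rwa [bR_coe] at this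
  · have h2 := hL.mul bR _ h1
    rw [bR_coe, mul_sub] at h2
    have h3 := add_mem h2 (tB_mem hL)
    rwa [sub_add_cancel] at h3
  · have h2 := hL.mul bR _ h1
    rw [bR_coe, mul_add] at h2
    have h3 := sub_mem h2 (tB_mem hL)
    rwa [add_sub_cancel_right] at h3

lemma al_not (hL : IsLat L RR Ω) {z : ℂ} (hz : al * z ∉ L.lattice) :
    z ∉ L.lattice ∧ z - tA Ω ∉ L.lattice ∧ z + tA Ω ∉ L.lattice := by
  refine ⟨fun h1 => hz ?_, fun h1 => hz ?_, fun h1 => hz ?_⟩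
  · have := hL.mul aR z h1
    rwa [aR_coe] at this
  · have h2 := hL.mul aR _ h1
    rw [aR_coe, mul_sub] at h2
    have h3 := add_mem h2 (tA_mem hL)
    rwa [sub_add_cancel] at h3
  · have h2 := hL.mul aR _ h1
    rw [aR_coe, mul_add] at h2
    have h3 := sub_mem h2 (tA_mem hL)
    rwa [add_sub_cancel_right] at h3

lemma a3 : al ^ 3 = -al - 2 := by linear_combination (al + 1) * al_sq
lemma a4 : al ^ 4 = -3 * al + 2 := by linear_combination (al ^ 2 + al - 1) * al_sq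
lemma a5 : al ^ 5 = -al + 6 := by linear_combination al * a4 - 3 * al_sq
lemma a6 : al ^ 6 = 5 * al + 2 := by linear_combination al * a5 - al_sq
lemma a7 : al ^ 7 = 7 * al - 10 := by linear_combination al * a6 + 5 * al_sq
lemma a8 : al ^ 8 = -3 * al - 14 := by linear_combination al * a7 + 7 * al_sq

lemma xw_tB (h : LD L Ω) : xw L (tB Ω) = al * bl⁻¹ ^ 2 := by
  unfold xw
  rw [h.eb, bl_inv]
  linear_combination (-1 / 4 : ℂ) * a3

lemma yw_tB (h : LD L Ω) : yw L (tB Ω) = -bl⁻¹ ^ 3 := by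
  unfold yw
  rw [dwp_half (two_tB h.lat), xw_tB h, bl_inv]
  ring

lemma xw_bl (h : LD L Ω) {z : ℂ} (hz : bl * z ∉ L.lattice) :
    xw L (bl * z) = bl⁻¹ ^ 2 * (lw L z (tB Ω) ^ 2 + lw L z (tB Ω) + (2 * bl - 3) * bl⁻¹ ^ 2) := by
  obtain ⟨h1, h2, h3⟩ := bl_not h.lat hz
  have hm := mul_bl h.lat hz
  have hx := (t_ADD L Ω 0 h z (tB Ω) h1 (tB_notMem h.lat) h3 h2).2.1
  have hper : ℘[L] (z - tB Ω) = ℘[L] (z + tB Ω) := wp_per (by
    have e : z - tB Ω - (z + tB Ω) = -(2 * tB Ω) := by ring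
    rw [e]
    exact neg_mem (two_tB h.lat))
  rw [hper] at hm
  have e1 : ℘[L] (z + tB Ω) = xw L (z + tB Ω) - 1 / 4 := by unfold xw; ring
  have e2 : ℘[L] z = xw L z - 1 / 4 := by unfold xw; ring
  have e3 : ℘[L] (tB Ω) = xw L (tB Ω) - 1 / 4 := by unfold xw; ring
  have e4 : ℘[L] (bl * z) = xw L (bl * z) - 1 / 4 := by unfold xw; ring
  rw [e1, e2, e3, e4, hx, xw_tB h] at hm
  have hb : bl ^ 2 ≠ 0 := pow_ne_zero 2 bl_ne
  apply mul_left_cancel₀ hb
  have hbi : bl ^ 2 * (bl⁻¹ ^ 2 * (lw L z (tB Ω) ^ 2 + lw L z (tB Ω) + (2 * bl - 3) * bl⁻¹ ^ 2)) =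
      lw L z (tB Ω) ^ 2 + lw L z (tB Ω) + (2 * bl - 3) * bl⁻¹ ^ 2 := by
    rw [← mul_assoc, ← mul_pow, mul_inv_cancel₀ bl_ne, one_pow, one_mul]
  rw [hbi]
  rw [bl_inv, bl_eq] at hm ⊢
  generalize lw L z (tB Ω) = lam at *
  generalize xw L z = x at *
  generalize xw L ((1 - al) * z) = X at *
  ring_nf at hm ⊢
  simp only [al_sq, a3] at hm ⊢
  linear_combination hm

theorem t_BL : S_BL := by
  intro hzb L Ω q h u z hz
  obtain ⟨h1, h2, h3⟩ := bl_not h.lat hz
  have nB := tB_notMem h.lat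
  obtain ⟨-, hx, -, hd, -⟩ := t_ADD L Ω q h z (tB Ω) h1 nB h3 h2
  have hne := wp_sub_ne h1 nB h3 h2
  have hlw := lw_eq hne
  have hzb1 := (hzb L Ω h).1 z hz
  rw [dwp_half (two_tB h.lat), sub_zero] at hlw
  have q1 : bl * Sw L q (al * u) (bl * z) = 2 * Sw L q u z + lw L z (tB Ω) - bl⁻¹ := by
    unfold Sw
    rw [hlw, bl_inv]
    rw [bl_eq] at hzb1 ⊢
    have hab : al * (1 - al) = 2 := Pool.Agent.Y698.al_mul_bl
    linear_combination hzb1 + (-q * u) * hab - (z / 4) * al_sq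
  have q2 := xw_bl h hz
  -- the derivative
  have hy : ℘'[L] (bl * z) = bl⁻¹ ^ 3 * (2 * lw L z (tB Ω) + 1) *
      (2 * xw L z + xw L (tB Ω) - lw L z (tB Ω) ^ 2 - lw L z (tB Ω) - 1) := by
    have hopen : ∀ᶠ t in 𝓝 z, bl * t ∉ L.lattice :=
      (Continuous.continuousAt (f := fun t : ℂ => bl * t) (by fun_prop)).eventually
        ((isOpen_compl L).mem_nhds hz)
    have d1 : HasDerivAt (fun t => xw L (bl * t)) (℘'[L] (bl * z) * bl) z := by
      have h0 : HasDerivAt (fun z : ℂ => bl * z) bl z := by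
        simpa using (hasDerivAt_id z).const_mul bl
      have h4 : HasDerivAt (xw L) (℘'[L] (bl * z)) (bl * z) :=
        (hasDerivAt_weierstrassP L hz).add_const _
      exact h4.comp z h0
    have d2 : HasDerivAt (fun t => bl⁻¹ ^ 2 * (lw L t (tB Ω) ^ 2 + lw L t (tB Ω) +
        (2 * bl - 3) * bl⁻¹ ^ 2)) (bl⁻¹ ^ 2 * (2 * lw L z (tB Ω) *
        (2 * xw L z + xw L (tB Ω) - lw L z (tB Ω) ^ 2 - lw L z (tB Ω) - 1) +
        (2 * xw L z + xw L (tB Ω) - lw L z (tB Ω) ^ 2 - lw L z (tB Ω) - 1))) z := by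
      refine (((hd.pow 2).add hd).add_const _).const_mul _ |>.congr_deriv ?_
      push_cast
      ring
    have hev : (fun t => xw L (bl * t)) =ᶠ[𝓝 z] fun t => bl⁻¹ ^ 2 *
        (lw L t (tB Ω) ^ 2 + lw L t (tB Ω) + (2 * bl - 3) * bl⁻¹ ^ 2) := by
      filter_upwards [hopen] with t ht
      exact xw_bl h ht
    have h5 := d1.unique (d2.congr_of_eventuallyEq hev)
    apply mul_right_cancel₀ bl_ne
    rw [h5]
    have hb : bl⁻¹ ^ 3 * bl = bl⁻¹ ^ 2 := by
      rw [pow_succ, mul_assoc, inv_mul_cancel₀ bl_ne, mul_one]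
    linear_combination (-((2 * lw L z (tB Ω) + 1) *
      (2 * xw L z + xw L (tB Ω) - lw L z (tB Ω) ^ 2 - lw L z (tB Ω) - 1))) * hb
  refine ⟨q1, q2, ?_, ?_, xw_tB h, yw_tB h⟩
  · have e : yw L (bl * z) = (℘'[L] (bl * z) - xw L (bl * z)) / 2 := rfl
    rw [e, hy, q2, xw_tB h, bl_inv, bl_eq]
    generalize lw L z (tB Ω) = lam at *
    generalize xw L z = x at *
    ring_nf
    simp only [al_sq, a3, a4, a5, a6, a7, a8]
    ring
  · have q1' : Sw L q (al * u) (bl * z) = bl⁻¹ * (2 * Sw L q u z + lw L z (tB Ω) - bl⁻¹) := by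
      rw [← q1, ← mul_assoc, inv_mul_cancel₀ bl_ne, one_mul]
    unfold kw
    rw [q1', q2, bl_inv, bl_eq]
    generalize lw L z (tB Ω) = lam at *
    generalize Sw L q u z = S at *
    ring_nf
    simp only [al_sq, a3, a4, a5, a6, a7, a8]
    ring

theorem t_AL : S_AL := by
  intro hzb L Ω q h u z
  constructor
  · intro hz
    have hm := (LD.mul_al h hz).2
    obtain ⟨h1, h2, h3⟩ := al_not h.lat hz
    have hne := wp_sub_ne h1 (tA_notMem h.lat) h3 h2
    have hzb1 := (hzb L Ω h).2 z hz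
    have hm' : al ^ 2 * xw L z - bl ≠ 0 := hm
    refine ⟨hm', ?_⟩
    rw [h.ea] at hne hzb1
    have hxx : al ^ 2 * xw L z - bl = al ^ 2 * (℘[L] z - (al - 4) / 4) := by
      unfold xw
      rw [bl_eq]
      linear_combination (1 / 4 * al - 1 / 2 : ℂ) * al_sq
    have hD : ℘'[L] z / (2 * (℘[L] z - (al - 4) / 4)) =
        al ^ 2 * (2 * yw L z + xw L z) / (2 * (al ^ 2 * xw L z - bl)) := by
      have e : 2 * yw L z + xw L z = ℘'[L] z := by unfold yw; ring
      rw [e, hxx]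
      have := al_ne
      field_simp
    rw [hD] at hzb1
    apply mul_left_cancel₀ al_ne
    have hab : al * bl = 2 := Pool.Agent.Y698.al_mul_bl
    have e1 : al * Sw L q (bl * u) (al * z) = 2 * Sw L q u z - 1 +
        al ^ 2 * (2 * yw L z + xw L z) / (2 * (al ^ 2 * xw L z - bl)) + al / 2 := by
      unfold Sw
      linear_combination hzb1 - (q * u) * hab - (z / 4) * al_sq
    rw [e1]
    have e2 : al ^ 2 * (2 * yw L z + xw L z) / (2 * (al ^ 2 * xw L z - bl)) - 1 + al / 2 =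
        al * ((al * yw L z - xw L z - 1) / (al ^ 2 * xw L z - bl)) := by
      rw [bl_eq] at hm' ⊢
      generalize xw L z = x at *
      generalize yw L z = y at *
      field_simp
      ring_nf
      simp only [al_sq, a3, a4, a5]
      ring
    linear_combination e2 - Sw L q u z * hab
  · intro hz
    have hz' := two_mul_notMem_of L hz
    have hne := wp'_ne_zero L hz
    have e : 2 * yw L z + xw L z = ℘'[L] z := by unfold yw; ring
    refine ⟨by rw [e]; exact hne, ?_⟩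
    have h2 := zeta_two L hz
    rw [h.g2] at h2
    have e3 : (3 * xw L z ^ 2 - 2 * xw L z - 2 - yw L z) / (2 * yw L z + xw L z) =
        (6 * ℘[L] z ^ 2 - 35 / 4 / 2) / (2 * ℘'[L] z) - 1 / 2 := by
      rw [e]
      have e4 : yw L z = (℘'[L] z - (℘[L] z + 1 / 4)) / 2 := rfl
      have e5 : xw L z = ℘[L] z + 1 / 4 := rfl
      rw [e4, e5]
      field_simp
      ring
    rw [e3]
    unfold Sw
    linear_combination h2

end Pool.Agent.Q187.BKL
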