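import Pool.Agent.Q187.BKL.Add

/-!
# Project BKL (helper274): jobs COMM and EV
-/

set_option autoImplicit false

open Filter
open scoped Topology PeriodPair

namespace Pool.Agent.Q187.BKL

open H667R3 Pool.Agent.TH936.CM Pool.Agent.Q274.BKL
open Pool.Agent.TH936.CW (ek evz Pp Hh)
open Pool.Agent.Y698 (RR aR bR fR al bl tA tB LD e7 nR nI Inq qch)

/-- mixed derivatives of `H (z + w) A z B w` in the order `z`, `w` -/
lemma mixed {H A B : ℂ → ℂ} {z w : ℂ} (hH : Differentiable ℂ H) (hA : AnalyticAt ℂ A z)
    (hB : AnalyticAt ℂ B w) (a b : ℕ) :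
    iteratedDeriv a (fun w' => iteratedDeriv b (fun z' => H (z' + w') * A z' * B w') z) w =
      ∑ i ∈ Finset.range (b + 1), ∑ j ∈ Finset.range (a + 1),
        b.choose i * a.choose j * iteratedDeriv (b - i) A z * iteratedDeriv (a - j) B w *
          iteratedDeriv (j + i) H (z + w) := by
  have hHa : ∀ x, AnalyticAt ℂ H x := fun x => hH.analyticAt x
  have hHi : ∀ i x, AnalyticAt ℂ (iteratedDeriv i H) x := fun i x => by
    rw [iteratedDeriv_eq_iterate]
    exact (hHa x).iterated_deriv i
  -- the inner derivative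
  have h1 : (fun w' => iteratedDeriv b (fun z' => H (z' + w') * A z' * B w') z) =
      fun w' => ∑ i ∈ Finset.range (b + 1), (b.choose i * iteratedDeriv (b - i) A z) *
        (iteratedDeriv i H (z + w') * B w') := by
    funext w'
    have e1 : iteratedDeriv b (fun z' => H (z' + w') * A z' * B w') z =
        iteratedDeriv b (fun z' => H (z' + w') * A z') z * B w' :=
      iteratedDeriv_mul_const_field (fun z' => H (z' + w') * A z') (B w')
    have e3 : ContDiffAt ℂ b (fun z' => H (z' + w')) z :=
      (AnalyticAt.comp (g := H) (f := fun z' => z' + w') (hHa _) (by fun_prop)).contDiffAt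
    have e2 : iteratedDeriv b (fun z' => H (z' + w') * A z') z =
        ∑ i ∈ Finset.range (b + 1), b.choose i * iteratedDeriv i (fun z' => H (z' + w')) z *
          iteratedDeriv (b - i) A z := iteratedDeriv_mul e3 hA.contDiffAt
    rw [e1, e2, Finset.sum_mul]
    refine Finset.sum_congr rfl fun i _ => ?_
    rw [iteratedDeriv_comp_add_const]
    ring
  rw [h1]
  have hterm : ∀ i, AnalyticAt ℂ (fun w' => iteratedDeriv i H (z + w') * B w') w := fun i =>
    (AnalyticAt.comp (g := iteratedDeriv i H) (f := fun w' => z + w') (hHi i _)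
      (by fun_prop)).mul hB
  have h2 : iteratedDeriv a (fun w' => ∑ i ∈ Finset.range (b + 1),
      (b.choose i * iteratedDeriv (b - i) A z) * (iteratedDeriv i H (z + w') * B w')) w =
      ∑ i ∈ Finset.range (b + 1), iteratedDeriv a (fun w' =>
        (b.choose i * iteratedDeriv (b - i) A z) * (iteratedDeriv i H (z + w') * B w')) w := by
    apply iteratedDeriv_fun_sum
    intro i _
    exact (analyticAt_const.mul (hterm i)).contDiffAt
  rw [h2]
  refine Finset.sum_congr rfl fun i _ => ?_
  have e1 : iteratedDeriv a (fun w' => (b.choose i * iteratedDeriv (b - i) A z) *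
      (iteratedDeriv i H (z + w') * B w')) w = (b.choose i * iteratedDeriv (b - i) A z) *
      iteratedDeriv a (fun w' => iteratedDeriv i H (z + w') * B w') w :=
    iteratedDeriv_const_mul_field _ _
  have e3 : ContDiffAt ℂ a (fun w' => iteratedDeriv i H (z + w')) w :=
    (AnalyticAt.comp (g := iteratedDeriv i H) (f := fun w' => z + w') (hHi i _)
      (by fun_prop)).contDiffAt
  have e2 : iteratedDeriv a (fun w' => iteratedDeriv i H (z + w') * B w') w =
      ∑ j ∈ Finset.range (a + 1), a.choose j *
        iteratedDeriv j (fun w' => iteratedDeriv i H (z + w')) w * iteratedDeriv (a - j) B w :=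
    iteratedDeriv_mul e3 hB.contDiffAt
  rw [e1, e2, Finset.mul_sum]
  refine Finset.sum_congr rfl fun j _ => ?_
  rw [iteratedDeriv_comp_const_add]
  have e4 : iteratedDeriv j (iteratedDeriv i H) = iteratedDeriv (j + i) H := by
    rw [iteratedDeriv_eq_iterate, iteratedDeriv_eq_iterate, iteratedDeriv_eq_iterate,
      Function.iterate_add_apply]
  rw [e4]
  ring

theorem t_COMM : S_COMM := by
  intro L q u z w a b hz hw
  set H : ℂ → ℂ := Hh L (1 / 4) q u with hH
  set A : ℂ → ℂ := fun z => (Hh L (1 / 4) q u z)⁻¹ with hA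
  set B : ℂ → ℂ := fun w => (Hh L (1 / 4) q 0 w)⁻¹ with hB
  have hHd : Differentiable ℂ H := Pool.Agent.TH936.CW.Hh_diff L (1 / 4) q u
  have hAa : AnalyticAt ℂ A z :=
    ((Pool.Agent.TH936.CW.Hh_diff L (1 / 4) q u).analyticAt z).inv
      (Pool.Agent.TH936.CW.Hh_ne L (1 / 4) q u hz)
  have hBa : AnalyticAt ℂ B w :=
    ((Pool.Agent.TH936.CW.Hh_diff L (1 / 4) q 0).analyticAt w).inv
      (Pool.Agent.TH936.CW.Hh_ne L (1 / 4) q 0 hw)
  have hK : ∀ z' w', Kw L q u z' w' = H (z' + w') * A z' * B w' := by
    intro z' w'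
    unfold Kw
    rw [hH, hA, hB, div_eq_mul_inv, mul_inv]
    ring
  have e1 : iteratedDeriv a (fun w' => iteratedDeriv b (fun z' => Kw L q u z' w') z) w =
      iteratedDeriv a (fun w' => iteratedDeriv b (fun z' => H (z' + w') * A z' * B w') z) w := by
    simp only [hK]
  have e2 : iteratedDeriv b (fun z' => iteratedDeriv a (fun w' => Kw L q u z' w') w) z =
      iteratedDeriv b (fun z' => iteratedDeriv a (fun w' => H (w' + z') * B w' * A z') w) z := by
    simp only [hK]
    congr 1
    funext z'
    congr 1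
    funext w'
    rw [add_comm z' w']
    ring
  rw [e1, e2, mixed hHd hAa hBa, mixed hHd hBa hAa, Finset.sum_comm]
  refine Finset.sum_congr rfl fun j _ => Finset.sum_congr rfl fun i _ => ?_
  rw [add_comm z w, add_comm j i]
  ring

/-- derivative of the value of a polynomial -/
lemma aeval_deriv {n : ℕ} (D : Derivation ℤ (MvPolynomial (Fin n) ℤ) (MvPolynomial (Fin n) ℤ))
    (c : ℂ → Fin n → ℂ) (t0 : ℂ)
    (h : ∀ i, HasDerivAt (fun t => c t i) (MvPolynomial.aeval (c t0) (D (MvPolynomial.X i))) t0)
    (P : MvPolynomial (Fin n) ℤ) :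
    HasDerivAt (fun t => MvPolynomial.aeval (c t) P) (MvPolynomial.aeval (c t0) (D P)) t0 := by
  induction P using MvPolynomial.induction_on with
  | C a =>
    have h0 : D (MvPolynomial.C a) = 0 := by
      have := D.map_algebraMap a
      rwa [MvPolynomial.algebraMap_eq] at this
    rw [h0, map_zero]
    have : (fun t => MvPolynomial.aeval (c t) (MvPolynomial.C a : MvPolynomial (Fin n) ℤ)) =
        fun _ => (algebraMap ℤ ℂ a) := by
      funext t
      exact MvPolynomial.aeval_C _ _
    rw [this]
    exact hasDerivAt_const _ _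
  | add P Q hP hQ =>
    simp only [map_add]
    exact hP.add hQ
  | mul_X P i hP =>
    simp only [map_mul, MvPolynomial.aeval_X]
    rw [Derivation.leibniz, map_add, smul_eq_mul, smul_eq_mul, map_mul, map_mul,
      MvPolynomial.aeval_X]
    refine (hP.mul (h i)).congr_deriv ?_
    ring

end Pool.Agent.Q187.BKL
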