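import Pool.Agent.Q187.BKL.Comm

/-!
# Project BKL (helper274): job EV
-/

set_option autoImplicit false

open Filter
open scoped Topology PeriodPair

namespace Pool.Agent.Q187.BKL

open H667R3 Pool.Agent.TH936.CM Pool.Agent.Q274.BKL
open Pool.Agent.TH936.CW (ek evz Pp Hh)
open Pool.Agent.Y698 (RR aR bR fR al bl tA tB LD e7 nR nI Inq qch)

variable {L : PeriodPair}

lemma Ew_add (q u z w : ℂ) (P Q : QQ) :
    Ew L q u z w (P + Q) = Ew L q u z w P + Ew L q u z w Q := map_add _ _ _

lemma Ew_mul (q u z w : ℂ) (P Q : QQ) :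
    Ew L q u z w (P * Q) = Ew L q u z w P * Ew L q u z w Q := map_mul _ _ _

theorem t_EV : S_EV := by
  intro hadd hder hkd L Ω q hLD
  -- first derivatives
  have D1 : ∀ (u z w : ℂ), z ∉ L.lattice → w ∉ L.lattice → z + w ∉ L.lattice →
      z - w ∉ L.lattice → ∀ P : QQ, HasDerivAt (fun t => Ew L q u t w P * Kw L q u t w)
        (Ew L q u z w (nz P) * Kw L q u z w) z := by
    intro u z w hz hw h1 h2 P
    obtain ⟨-, -, -, a4, -⟩ := hadd L Ω q hLD z w hz hw h1 h2
    obtain ⟨-, b2, b3, b4⟩ := hder L Ω q hLD z hz
    have hk := (hkd hadd L Ω q hLD u z w hz hw h1 h2).1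
    have hE : HasDerivAt (fun t => Ew L q u t w P) (Ew L q u z w (dz P)) z := by
      unfold Ew
      refine aeval_deriv dz (fun t => ![Sw L q u t, xw L t, yw L t, kw L q u t, lw L t w,
        Sw L q 0 w, xw L w, yw L w, kw L q 0 w]) z ?_ P
      intro i
      unfold dz
      rw [MvPolynomial.mkDerivation_X]
      fin_cases i
      · refine (b4 u).1.congr_deriv ?_
        simp
      · refine b2.congr_deriv ?_
        simp
      · refine b3.congr_deriv ?_
        simp
      · refine (b4 u).2.congr_deriv ?_
        simp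
      · refine a4.congr_deriv ?_
        simp
      · refine (hasDerivAt_const z _).congr_deriv ?_
        simp
      · refine (hasDerivAt_const z _).congr_deriv ?_
        simp
      · refine (hasDerivAt_const z _).congr_deriv ?_
        simp
      · refine (hasDerivAt_const z _).congr_deriv ?_
        simp
    refine (hE.mul hk).congr_deriv ?_
    unfold nz
    rw [Ew_add, Ew_mul, Ew_add]
    have e5 : Ew L q u z w (MvPolynomial.X 5) = Sw L q 0 w := by
      unfold Ew
      simp
    have e4 : Ew L q u z w (MvPolynomial.X 4) = lw L z w := by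
      unfold Ew
      simp
    rw [e4, e5]
    ring
  have D2 : ∀ (u z w : ℂ), z ∉ L.lattice → w ∉ L.lattice → z + w ∉ L.lattice →
      z - w ∉ L.lattice → ∀ P : QQ, HasDerivAt (fun t => Ew L q u z t P * Kw L q u z t)
        (Ew L q u z w (nw P) * Kw L q u z w) w := by
    intro u z w hz hw h1 h2 P
    obtain ⟨-, -, -, -, a5⟩ := hadd L Ω q hLD z w hz hw h1 h2
    obtain ⟨-, b2, b3, b4⟩ := hder L Ω q hLD w hw
    have hk := (hkd hadd L Ω q hLD u z w hz hw h1 h2).2
    have hE : HasDerivAt (fun t => Ew L q u z t P) (Ew L q u z w (dw P)) w := by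
      unfold Ew
      refine aeval_deriv dw (fun t => ![Sw L q u z, xw L z, yw L z, kw L q u z, lw L z t,
        Sw L q 0 t, xw L t, yw L t, kw L q 0 t]) w ?_ P
      intro i
      unfold dw
      rw [MvPolynomial.mkDerivation_X]
      fin_cases i
      · refine (hasDerivAt_const w _).congr_deriv ?_
        simp
      · refine (hasDerivAt_const w _).congr_deriv ?_
        simp
      · refine (hasDerivAt_const w _).congr_deriv ?_
        simp
      · refine (hasDerivAt_const w _).congr_deriv ?_
        simp
      · refine a5.congr_deriv ?_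
        simp
      · refine (b4 0).1.congr_deriv ?_
        simp
      · refine b2.congr_deriv ?_
        simp
      · refine b3.congr_deriv ?_
        simp
      · refine (b4 0).2.congr_deriv ?_
        simp
    refine (hE.mul hk).congr_deriv ?_
    unfold nw
    rw [Ew_add, Ew_mul, Ew_add]
    have e5 : Ew L q u z w (MvPolynomial.X 0) = Sw L q u z := by
      unfold Ew
      simp
    have e4 : Ew L q u z w (MvPolynomial.X 4) = lw L z w := by
      unfold Ew
      simp
    rw [e4, e5]
    ring
  have I1 : ∀ (u w : ℂ), w ∉ L.lattice → ∀ (P : QQ) (n : ℕ) (z : ℂ), z ∉ L.lattice →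
      z + w ∉ L.lattice → z - w ∉ L.lattice →
      iteratedDeriv n (fun t => Ew L q u t w P * Kw L q u t w) z =
        Ew L q u z w (nz^[n] P) * Kw L q u z w := by
    intro u w hw P n
    induction n with
    | zero =>
      intro z _ _ _
      rw [iteratedDeriv_zero, Function.iterate_zero, id]
    | succ n ih =>
      intro z hz h1 h2
      rw [iteratedDeriv_succ]
      have hop : ∀ᶠ t in 𝓝 z, t ∉ L.lattice ∧ t + w ∉ L.lattice ∧ t - w ∉ L.lattice := by
        refine Filter.Eventually.and ((isOpen_compl L).mem_nhds hz) (?_)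
        have e1 : ∀ᶠ t in 𝓝 z, t + w ∉ L.lattice :=
          ((continuous_id.add continuous_const).continuousAt (x := z)).eventually
            ((isOpen_compl L).mem_nhds h1)
        have e2 : ∀ᶠ t in 𝓝 z, t - w ∉ L.lattice :=
          ((continuous_id.sub continuous_const).continuousAt (x := z)).eventually
            ((isOpen_compl L).mem_nhds h2)
        exact e1.and e2
      have hev : iteratedDeriv n (fun t => Ew L q u t w P * Kw L q u t w) =ᶠ[𝓝 z]
          fun t => Ew L q u t w (nz^[n] P) * Kw L q u t w := by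
        filter_upwards [hop] with t ht
        exact ih t ht.1 ht.2.1 ht.2.2
      rw [hev.deriv_eq, (D1 u z w hz hw h1 h2 (nz^[n] P)).deriv, Function.iterate_succ_apply']
  have I2 : ∀ (u z : ℂ), z ∉ L.lattice → ∀ (P : QQ) (n : ℕ) (w : ℂ), w ∉ L.lattice →
      z + w ∉ L.lattice → z - w ∉ L.lattice →
      iteratedDeriv n (fun t => Ew L q u z t P * Kw L q u z t) w =
        Ew L q u z w (nw^[n] P) * Kw L q u z w := by
    intro u z hz P n
    induction n with
    | zero =>
      intro w _ _ _
      rw [iteratedDeriv_zero, Function.iterate_zero, id]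
    | succ n ih =>
      intro w hw h1 h2
      rw [iteratedDeriv_succ]
      have hop : ∀ᶠ t in 𝓝 w, t ∉ L.lattice ∧ z + t ∉ L.lattice ∧ z - t ∉ L.lattice := by
        refine Filter.Eventually.and ((isOpen_compl L).mem_nhds hw) (?_)
        have e1 : ∀ᶠ t in 𝓝 w, z + t ∉ L.lattice :=
          ((continuous_const.add continuous_id).continuousAt (x := w)).eventually
            ((isOpen_compl L).mem_nhds h1)
        have e2 : ∀ᶠ t in 𝓝 w, z - t ∉ L.lattice :=
          ((continuous_const.sub continuous_id).continuousAt (x := w)).eventually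
            ((isOpen_compl L).mem_nhds h2)
        exact e1.and e2
      have hev : iteratedDeriv n (fun t => Ew L q u z t P * Kw L q u z t) =ᶠ[𝓝 w]
          fun t => Ew L q u z t (nw^[n] P) * Kw L q u z t := by
        filter_upwards [hop] with t ht
        exact ih t ht.1 ht.2.1 ht.2.2
      rw [hev.deriv_eq, (D2 u z w hz hw h1 h2 (nw^[n] P)).deriv, Function.iterate_succ_apply']
  intro u z w hz hw h1 h2
  exact ⟨fun P => ⟨D1 u z w hz hw h1 h2 P, D2 u z w hz hw h1 h2 P⟩,
    fun P n => I1 u w hw P n z hz h1 h2, fun P n => I2 u z hz P n w hw h1 h2⟩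

end Pool.Agent.Q187.BKL
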