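import Pool.Agent.Q187.BKL.Add

/-!
# Project BKL (helper274): job KP
-/

set_option autoImplicit false

open Filter
open scoped Topology PeriodPair

namespace Pool.Agent.Q187.BKL

open H667R3 Pool.Agent.TH936.CM Pool.Agent.Q274.BKL
open Pool.Agent.TH936.CW (ek evz Pp Hh)
open Pool.Agent.Y698 (RR aR bR fR al bl tA tB LD e7 nR nI Inq qch)

variable {L : PeriodPair}

lemma ev_notMem (x : ℂ) : ∀ᶠ t in 𝓝[≠] x, t ∉ L.lattice := by
  filter_upwards [self_mem_nhdsWithin, mem_nhdsWithin_of_mem_nhds
      (L.compl_lattice_sdiff_singleton_mem_nhds x)] with w hw hw'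
  simp_all

/-- the relation between three arguments, generic case -/
lemma sig3_gen {a c d : ℂ} (ha : a ∉ L.lattice) (hc : c ∉ L.lattice) (hd : d ∉ L.lattice)
    (h2 : 2 * a ∉ L.lattice)
    (h1 : a + c ∉ L.lattice) (h1' : a - c ∉ L.lattice) (h3 : a + d ∉ L.lattice)
    (h3' : a - d ∉ L.lattice) :
    (zeta L (a + c) + zeta L (a - c) - zeta L (a + d) - zeta L (a - d)) *
      (sigma L (a + c) * sigma L (a - c) * sigma L (a + d) * sigma L (a - d)) =
      sigma L (2 * a) * sigma L (c + d) * sigma L (c - d) := by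
  have z1 := zeta_aux L ha hc h1 h1'
  have z2 := zeta_aux L ha hd h3 h3'
  have w1 := wp_sub_wp L ha hc
  have w2 := wp_sub_wp L ha hd
  have w3 := wp_sub_wp L hc hd
  have w4 := wp'_eq L ha
  have sa := sigma_ne_zero L ha
  have sc := sigma_ne_zero L hc
  have sd := sigma_ne_zero L hd
  have e : (zeta L (a + c) + zeta L (a - c) - zeta L (a + d) - zeta L (a - d)) *
      ((℘[L] a - ℘[L] c) * (℘[L] a - ℘[L] d)) = ℘'[L] a * (℘[L] c - ℘[L] d) := by
    linear_combination (-(℘[L] a - ℘[L] d)) * z1 + (℘[L] a - ℘[L] c) * z2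
  rw [w1, w2, w3, w4] at e
  field_simp at e
  rw [mul_comm a 2] at e
  linear_combination e

/-- the relation between three arguments -/
lemma sig3 {z z' w : ℂ} (hz : z ∉ L.lattice) (hz' : z' ∉ L.lattice) (hw : w ∉ L.lattice)
    (h1 : z + z' ∉ L.lattice) (h4 : z + z' + w ∉ L.lattice) :
    (zeta L z + zeta L z' + zeta L w - zeta L (z + z' + w)) *
      (sigma L z * sigma L z' * sigma L w * sigma L (z + z' + w)) =
      sigma L (z + z') * sigma L (z + w) * sigma L (z' + w) := by
  -- the two sides as functions of `z`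
  set F : ℂ → ℂ := fun z => (zeta L z + zeta L z' + zeta L w - zeta L (z + z' + w)) *
      (sigma L z * sigma L z' * sigma L w * sigma L (z + z' + w)) with hF
  set G : ℂ → ℂ := fun z => sigma L (z + z') * sigma L (z + w) * sigma L (z' + w) with hG
  have sc := (differentiable_sigma L).continuous
  have hFc : ContinuousAt F z := by
    have c1 : ContinuousAt (zeta L) z := (hasDerivAt_zeta L hz).continuousAt
    have c2 : ContinuousAt (fun z => zeta L (z + z' + w)) z :=
      ContinuousAt.comp (f := fun z => z + z' + w) (hasDerivAt_zeta L h4).continuousAt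
        (by fun_prop)
    have c3 : ContinuousAt (fun z => sigma L z * sigma L z' * sigma L w *
        sigma L (z + z' + w)) z := by
      apply Continuous.continuousAt
      fun_prop
    exact (((c1.add continuousAt_const).add continuousAt_const).sub c2).mul c3
  have hGc : ContinuousAt G z := by
    apply Continuous.continuousAt
    fun_prop
  have ev1 : ∀ᶠ t in 𝓝[≠] z, (t - z') / 2 ∉ L.lattice := by
    have : Tendsto (fun t => (t - z') / 2) (𝓝[≠] z) (𝓝[≠] ((z - z') / 2)) := by
      refine tendsto_nhdsWithin_of_tendsto_nhds_of_eventually_within _ ?_ ?_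
      · exact (Continuous.tendsto (by fun_prop) z).mono_left nhdsWithin_le_nhds
      · filter_upwards [self_mem_nhdsWithin] with t ht ht'
        apply ht
        have h : (t - z') / 2 = (z - z') / 2 := ht'
        have : t = z := by linear_combination 2 * h
        exact this
    exact this.eventually (ev_notMem _)
  have ev2 : ∀ᶠ t in 𝓝[≠] z, -w - (t + z') / 2 ∉ L.lattice := by
    have : Tendsto (fun t => -w - (t + z') / 2) (𝓝[≠] z) (𝓝[≠] (-w - (z + z') / 2)) := by
      refine tendsto_nhdsWithin_of_tendsto_nhds_of_eventually_within _ ?_ ?_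
      · exact (Continuous.tendsto (by fun_prop) z).mono_left nhdsWithin_le_nhds
      · filter_upwards [self_mem_nhdsWithin] with t ht ht'
        apply ht
        have h : -w - (t + z') / 2 = -w - (z + z') / 2 := ht'
        have : t = z := by linear_combination (-2) * h
        exact this
    exact this.eventually (ev_notMem _)
  have ev3 : ∀ᶠ t in 𝓝 z, t ∉ L.lattice := (isOpen_compl L).mem_nhds hz
  have ev4 : ∀ᶠ t in 𝓝 z, t + z' ∉ L.lattice :=
    (Continuous.continuousAt (f := fun t : ℂ => t + z') (by fun_prop)).eventually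
      ((isOpen_compl L).mem_nhds h1)
  have ev5 : ∀ᶠ t in 𝓝 z, t + z' + w ∉ L.lattice :=
    (Continuous.continuousAt (f := fun t : ℂ => t + z' + w) (by fun_prop)).eventually
      ((isOpen_compl L).mem_nhds h4)
  have hFG : F =ᶠ[𝓝[≠] z] G := by
    filter_upwards [ev1, ev2, nhdsWithin_le_nhds ev3, nhdsWithin_le_nhds ev4,
      nhdsWithin_le_nhds ev5] with t t1 t2 t3 t4 t5
    have e1 : (t + z') / 2 + (t - z') / 2 = t := by ring
    have e2 : (t + z') / 2 - (t - z') / 2 = z' := by ring
    have e3 : (t + z') / 2 + (-w - (t + z') / 2) = -w := by ring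
    have e4 : (t + z') / 2 - (-w - (t + z') / 2) = t + z' + w := by ring
    have e5 : 2 * ((t + z') / 2) = t + z' := by ring
    have e6 : (t - z') / 2 + (-w - (t + z') / 2) = -(z' + w) := by ring
    have e7 : (t - z') / 2 - (-w - (t + z') / 2) = t + w := by ring
    have hh : (t + z') / 2 ∉ L.lattice := by
      intro h
      apply t4
      rw [← e5, two_mul]
      exact add_mem h h
    have hnw : -w ∉ L.lattice := fun h => hw (by simpa using neg_mem h)
    have key := sig3_gen (L := L) hh t1 t2 (by rw [e5]; exact t4) (by rw [e1]; exact t3)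
      (by rw [e2]; exact hz') (by rw [e3]; exact hnw) (by rw [e4]; exact t5)
    rw [e1, e2, e3, e4, e5, e6, e7, zeta_neg, sigma_neg, sigma_neg] at key
    simp only [hF, hG]
    linear_combination (-1 : ℂ) * key
  have t1 : Tendsto F (𝓝[≠] z) (𝓝 (F z)) := hFc.tendsto.mono_left nhdsWithin_le_nhds
  have t2 : Tendsto G (𝓝[≠] z) (𝓝 (G z)) := hGc.tendsto.mono_left nhdsWithin_le_nhds
  exact tendsto_nhds_unique (t1.congr' hFG) t2

/-- the function of Kronecker in terms of `σ` -/
lemma Kw_eq (q u z w : ℂ) : Kw L q u z w =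
    Complex.exp (-(q * u * w) - z * w / 4) * (sigma L (z + w) / (sigma L z * sigma L w)) := by
  unfold Kw Hh
  have e : Complex.exp (-(q * u * (z + w)) - 1 / 4 * (z + w) ^ 2 / 2) =
      Complex.exp (-(q * u * w) - z * w / 4) * (Complex.exp (-(q * u * z) - 1 / 4 * z ^ 2 / 2) *
        Complex.exp (-(q * 0 * w) - 1 / 4 * w ^ 2 / 2)) := by
    rw [← Complex.exp_add, ← Complex.exp_add]
    congr 1
    ring
  rw [e]
  have n1 := Complex.exp_ne_zero (-(q * u * z) - 1 / 4 * z ^ 2 / 2)
  have n2 := Complex.exp_ne_zero (-(q * 0 * w) - 1 / 4 * w ^ 2 / 2)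
  generalize Complex.exp (-(q * u * z) - 1 / 4 * z ^ 2 / 2) = x1 at *
  generalize Complex.exp (-(q * 0 * w) - 1 / 4 * w ^ 2 / 2) = x2 at *
  rw [← mul_div_assoc]
  have e2 : x1 * sigma L z * (x2 * sigma L w) = (x1 * x2) * (sigma L z * sigma L w) := by ring
  rw [e2, show Complex.exp (-(q * u * w) - z * w / 4) * (x1 * x2) * sigma L (z + w) =
    (x1 * x2) * (Complex.exp (-(q * u * w) - z * w / 4) * sigma L (z + w)) by ring,
    mul_div_mul_left _ _ (mul_ne_zero n1 n2)]

theorem t_KP : S_KP := by
  intro _ L Ω q hD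
  refine ⟨?_, ?_, ?_⟩
  · intro u u' z z' w hz hz' hw h1 h2 h3 h4 h5
    have key := sig3 hz hz' hw h1 h4
    have hl := lw_zeta (L := L) h1 hw h4 h5
    rw [Kw_eq, Kw_eq, Kw_eq, hl]
    have s1 := sigma_ne_zero L hz
    have s2 := sigma_ne_zero L hz'
    have s3 := sigma_ne_zero L hw
    have s4 := sigma_ne_zero L h1
    have e : Complex.exp (-(q * (u + u') * w) - (z + z') * w / 4) =
        Complex.exp (-(q * u * w) - z * w / 4) * Complex.exp (-(q * u' * w) - z' * w / 4) := by
      rw [← Complex.exp_add]
      congr 1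
      ring
    rw [e]
    have e2 : Sw L q u z + Sw L q u' z' - Sw L q (u + u') (z + z') - 1 -
        (zeta L (z + z' + w) - zeta L (z + z') - zeta L w - 1 / 2) =
        zeta L z + zeta L z' + zeta L w - zeta L (z + z' + w) := by
      unfold Sw
      ring
    rw [e2]
    generalize Complex.exp (-(q * u * w) - z * w / 4) = x1
    generalize Complex.exp (-(q * u' * w) - z' * w / 4) = x2
    field_simp
    linear_combination (-1 : ℂ) * (x1 * x2) * key
  · intro u z w hz hw
    rw [Kw_eq, Kw_eq]
    have e : Complex.exp (-(q * -u * w) - -z * w / 4) =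
        (Complex.exp (-(q * u * w) - z * w / 4))⁻¹ := by
      rw [← Complex.exp_neg]
      congr 1
      ring
    have h1 := wp_sub_wp L hw hz
    have s1 := sigma_ne_zero L hz
    have s3 := sigma_ne_zero L hw
    have n1 := Complex.exp_ne_zero (-(q * u * w) - z * w / 4)
    have e2 : xw L w - xw L z = ℘[L] w - ℘[L] z := by unfold xw; ring
    have e3 : -z + w = w - z := by ring
    have e4 : z + w = w + z := by ring
    rw [e, e2, h1, e3, e4, sigma_neg]
    field_simp
  · intro u z w l hz hw hl
    rw [Kw_eq, Kw_eq]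
    obtain ⟨C, hC, hs⟩ := sigma_add_coe L hl
    have e1 : z + l + w = z + w + l := by ring
    have heta := hD.per l hl
    have s1 := sigma_ne_zero L hz
    have s3 := sigma_ne_zero L hw
    have e : Complex.exp (-(q * (u + (starRingEnd ℂ) l) * w) - (z + l) * w / 4) *
        Complex.exp (eta L l * (z + w)) =
        Complex.exp (-(q * u * w) - z * w / 4) * Complex.exp (eta L l * z) := by
      rw [← Complex.exp_add, ← Complex.exp_add]
      congr 1
      rw [heta]
      ring
    have n1 := Complex.exp_ne_zero (eta L l * z)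
    rw [e1, hs, hs]
    generalize Complex.exp (-(q * (u + (starRingEnd ℂ) l) * w) - (z + l) * w / 4) = x1 at *
    generalize Complex.exp (eta L l * (z + w)) = x2 at *
    generalize Complex.exp (-(q * u * w) - z * w / 4) = x3 at *
    generalize Complex.exp (eta L l * z) = x4 at *
    field_simp
    linear_combination (sigma L (z + w)) * e

end Pool.Agent.Q187.BKL
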