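import Pool.Agent.Q187.BKL.Add

/-!
# Project BKL (helper274): job M2
-/

set_option autoImplicit false

open Filter
open scoped Topology PeriodPair

namespace Pool.Agent.Q187.BKL

open H667R3 Pool.Agent.TH936.CM Pool.Agent.TH936.CW Pool.Agent.Q274.BKL
open Pool.Agent.Y698 (RR aR bR fR al bl tA tB LD)

variable {L : PeriodPair}

lemma Rw_zero : Rw L 0 = 0 := L.weierstrassPExcept_zero 0

lemma Rw_neg (z : ℂ) : Rw L (-z) = Rw L z := by
  have h1 : Rw L (-z) = ℘[L] (-z) - 1 / (-z) ^ 2 := by rw [Rw_eq L]; ring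
  have h2 : Rw L z = ℘[L] z - 1 / z ^ 2 := by rw [Rw_eq L]; ring
  rw [h1, h2, L.weierstrassP_neg, neg_sq]

lemma Rw_deriv_zero : deriv (Rw L) 0 = 0 := by
  have h2 : HasDerivAt (Rw L) (deriv (Rw L) 0) 0 := (Rw_an L).differentiableAt.hasDerivAt
  have h3 : HasDerivAt (fun z => Rw L (-z)) (-deriv (Rw L) 0) 0 := by
    have h4 : HasDerivAt (Rw L) (deriv (Rw L) 0) (-0) := by rwa [neg_zero]
    have h6 := h4.comp (0 : ℂ) (hasDerivAt_neg (0 : ℂ))
    refine h6.congr_deriv ?_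
    ring
  have h5 : (fun z => Rw L (-z)) = Rw L := funext fun z => Rw_neg z
  rw [h5] at h3
  have := h2.unique h3
  linear_combination (1 / 2 : ℂ) * this

/-- the logarithmic derivative of `Mm` -/
noncomputable def gg (L : PeriodPair) (p w : ℂ) : ℂ := p * w - zreg L w

lemma gg_an (p : ℂ) : AnalyticAt ℂ (gg L p) 0 := by
  unfold gg
  exact (analyticAt_const.mul analyticAt_id).sub (zreg_an L)

lemma gg_deriv (p : ℂ) : deriv (gg L p) =ᶠ[𝓝 0] fun w => p + Rw L w := by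
  filter_upwards [zreg_deriv L, (zreg_an L).eventually_analyticAt] with w hw ha
  have h1 : HasDerivAt (zreg L) (deriv (zreg L) w) w := ha.differentiableAt.hasDerivAt
  rw [hw] at h1
  have h2 : HasDerivAt (fun w : ℂ => p * w) p w := by
    simpa using (hasDerivAt_id w).const_mul p
  have h3 := (h2.sub h1).deriv
  have h4 : gg L p = (fun w => p * w) - zreg L := rfl
  rw [h4, h3]
  ring

lemma gg0 (p : ℂ) : iteratedDeriv 0 (gg L p) 0 = 0 := by
  rw [iteratedDeriv_zero]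
  unfold gg
  rw [zreg_zero]
  ring

lemma gg1 (p : ℂ) : iteratedDeriv 1 (gg L p) 0 = p := by
  rw [iteratedDeriv_one, (gg_deriv p).self_of_nhds]
  beta_reduce
  rw [Rw_zero, add_zero]

lemma gg2 (p : ℂ) : iteratedDeriv 2 (gg L p) 0 = 0 := by
  rw [iteratedDeriv_succ', iteratedDeriv_one, (gg_deriv p).deriv_eq]
  have h2 : HasDerivAt (Rw L) (deriv (Rw L) 0) 0 := (Rw_an L).differentiableAt.hasDerivAt
  rw [Rw_deriv_zero] at h2
  exact (h2.const_add p).deriv

lemma rh0 (p : ℂ) : rh L p 0 = 1 := by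
  unfold rh
  rw [iteratedDeriv_zero]
  unfold Mm
  rw [Tt_zero, inv_one]

lemma rh_succ (p : ℂ) (n : ℕ) : rh L p (n + 1) = ∑ i ∈ Finset.range (n + 1),
    n.choose i * rh L p i * iteratedDeriv (n - i) (gg L p) 0 := by
  unfold rh
  rw [iteratedDeriv_succ']
  have h1 : deriv (Mm L p) =ᶠ[𝓝 0] fun w => Mm L p w * gg L p w := Mm_deriv L p
  rw [h1.iteratedDeriv_eq]
  exact iteratedDeriv_mul (cd (Mm_an L p) n) (cd (gg_an p) n)

lemma rh1 (p : ℂ) : rh L p 1 = 0 := by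
  rw [rh_succ]
  simp [gg0]

lemma rh2 (p : ℂ) : rh L p 2 = p := by
  rw [rh_succ]
  rw [Finset.sum_range_succ, Finset.sum_range_one, rh0, rh1]
  simp [gg1]

lemma rh3 (p : ℂ) : rh L p 3 = 0 := by
  rw [rh_succ]
  rw [Finset.sum_range_succ, Finset.sum_range_succ, Finset.sum_range_one, rh0, rh1, rh2]
  simp [gg2, gg0]

open MvPolynomial in
lemma Aa1 (p : ℂ) : Aa L p 1 = X 0 := by
  unfold Aa
  rw [Finset.sum_range_succ, Finset.sum_range_one]
  have h1 : Uu p L.g₂ 1 = X 0 := by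
    simp [Uu]
  rw [h1]
  simp [rh0, rh1]

open MvPolynomial in
lemma Aa3 (p : ℂ) : Aa L p 3 = X 0 ^ 3 - 3 * X 0 * X 1 - X 2 := by
  have h1 : Uu p L.g₂ 1 = X 0 := by
    simp [Uu]
  have h2 : Uu p L.g₂ 2 = -X 1 - C p + X 0 ^ 2 := by
    have e : Uu p L.g₂ 2 = Dv p L.g₂ (Uu p L.g₂ 1) + X 0 * Uu p L.g₂ 1 := rfl
    rw [e, h1, Dv_X0]
    ring
  have h3 : Uu p L.g₂ 3 = X 0 ^ 3 - 3 * X 0 * X 1 - 3 * C p * X 0 - X 2 := by
    have e : Uu p L.g₂ 3 = Dv p L.g₂ (Uu p L.g₂ 2) + X 0 * Uu p L.g₂ 2 := rfl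
    rw [e, h2, map_add, map_sub, map_neg, Dv_X1, Dv_C, Derivation.leibniz_pow, Dv_X0]
    simp only [smul_eq_mul, nsmul_eq_mul]
    push_cast
    ring
  unfold Aa
  rw [Finset.sum_range_succ, Finset.sum_range_succ, Finset.sum_range_succ, Finset.sum_range_one,
    h1, h2, h3]
  simp only [Nat.choose_zero_right, Nat.choose_one_right, Nat.sub_zero, Nat.choose_self,
    Nat.sub_self, rh0]
  have c2 : (3 : ℕ).choose 2 = 3 := rfl
  have s1 : 3 - 1 = 2 := rfl
  have s2 : 3 - 2 = 1 := rfl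
  rw [c2, s1, s2, rh1, rh2, rh3]
  simp only [Nat.cast_one, one_mul, mul_zero, map_zero, zero_mul, map_one, zero_add, add_zero,
    map_mul]
  have h9 : (C ((3 : ℕ) : ℂ) : PP) = 3 := by
    rw [Nat.cast_ofNat]
    exact map_ofNat C 3
  rw [h9]
  ring

theorem t_M2 : S_M2 := by
  intro L Ω q h z hz
  constructor
  · unfold Mk ek evz Pp
    rw [zero_add, Aa1, Function.iterate_zero, id]
    simp only [Nat.factorial_zero, Nat.factorial_one, Nat.cast_one, one_mul, div_one, map_one]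
    rw [ev_X0, Xx_Sw]
  · unfold Mk ek evz Pp
    have e3 : (2 + 1 : ℕ) = 3 := rfl
    rw [e3, Aa3]
    set S := Sw L q ((starRingEnd ℂ) z) z with hS
    have hX : Xx L (1 / 4) q ((starRingEnd ℂ) z) z = S - 1 / 2 := Xx_Sw q _ z
    rw [hX, h.g2]
    have hcurve := Pool.Agent.TH936.PU.ode hz
    rw [h.g2, h.g3] at hcurve
    have f3 : ((3 : ℕ).factorial : ℂ) = 6 := by norm_num [Nat.factorial]
    have f2 : ((2 : ℕ).factorial : ℂ) = 2 := by norm_num [Nat.factorial]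
    rw [f3, f2, ev_mul, ev_C, Function.iterate_succ_apply', Function.iterate_succ_apply',
      Function.iterate_zero, id]
    have d1 : Dv (1 / 4) (35 / 4) (MvPolynomial.X 0 ^ 3 - 3 * MvPolynomial.X 0 * MvPolynomial.X 1 -
        MvPolynomial.X 2) = -3 * MvPolynomial.X 0 ^ 2 * MvPolynomial.X 1 -
        3 * MvPolynomial.C (1 / 4) * MvPolynomial.X 0 ^ 2 + 3 * MvPolynomial.X 1 ^ 2 +
        3 * MvPolynomial.C (1 / 4) * MvPolynomial.X 1 - 3 * MvPolynomial.X 0 * MvPolynomial.X 2 -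
        MvPolynomial.C 6 * MvPolynomial.X 1 ^ 2 + MvPolynomial.C (35 / 4 / 2) := by
      have c3 : (3 : PP) = MvPolynomial.C 3 := (map_ofNat MvPolynomial.C 3).symm
      rw [map_sub, map_sub, Derivation.leibniz, Derivation.leibniz, Derivation.leibniz_pow, Dv_X0,
        Dv_X1, Dv_X2, c3, Dv_C]
      simp only [smul_eq_mul, nsmul_eq_mul, ← c3]
      push_cast
      ring
    have d2 : Dv (1 / 4) (35 / 4) (-3 * MvPolynomial.X 0 ^ 2 * MvPolynomial.X 1 -
        3 * MvPolynomial.C (1 / 4) * MvPolynomial.X 0 ^ 2 + 3 * MvPolynomial.X 1 ^ 2 +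
        3 * MvPolynomial.C (1 / 4) * MvPolynomial.X 1 - 3 * MvPolynomial.X 0 * MvPolynomial.X 2 -
        MvPolynomial.C 6 * MvPolynomial.X 1 ^ 2 + MvPolynomial.C (35 / 4 / 2)) =
        -6 * MvPolynomial.X 0 * (-MvPolynomial.X 1 - MvPolynomial.C (1 / 4)) * MvPolynomial.X 1 -
        3 * MvPolynomial.X 0 ^ 2 * MvPolynomial.X 2 -
        6 * MvPolynomial.C (1 / 4) * MvPolynomial.X 0 *
          (-MvPolynomial.X 1 - MvPolynomial.C (1 / 4)) + 6 * MvPolynomial.X 1 * MvPolynomial.X 2 +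
        3 * MvPolynomial.C (1 / 4) * MvPolynomial.X 2 -
        3 * (-MvPolynomial.X 1 - MvPolynomial.C (1 / 4)) * MvPolynomial.X 2 -
        3 * MvPolynomial.X 0 * (MvPolynomial.C 6 * MvPolynomial.X 1 ^ 2 -
          MvPolynomial.C (35 / 4 / 2)) -
        2 * MvPolynomial.C 6 * MvPolynomial.X 1 * MvPolynomial.X 2 := by
      have c3 : (3 : PP) = MvPolynomial.C 3 := (map_ofNat MvPolynomial.C 3).symm
      simp only [map_add, map_sub, map_neg, Derivation.leibniz, Derivation.leibniz_pow, Dv_X0,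
        Dv_X1, Dv_X2, c3, Dv_C]
      simp only [smul_eq_mul, nsmul_eq_mul, ← c3, smul_zero, mul_zero, add_zero, neg_zero]
      push_cast
      ring
    rw [d1, d2]
    have hy : ℘'[L] z = 2 * yw L z + xw L z := by unfold yw; ring
    have hx : ℘[L] z = xw L z - 1 / 4 := by unfold xw; ring
    rw [hy, hx]
    generalize xw L z = x
    generalize yw L z = y
    unfold ev
    simp only [map_add, map_sub, map_neg, map_mul, map_pow, map_ofNat, MvPolynomial.eval_X,
      MvPolynomial.eval_C]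
    simp only [Matrix.cons_val_zero, Matrix.cons_val_one, Matrix.cons_val]
    ring

end Pool.Agent.Q187.BKL
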