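import Pool.Agent.Q187.BKL.Add

/-!
# Project BKL (helper274): job ZB
-/

set_option autoImplicit false
set_option linter.unusedSectionVars false

open Filter
open scoped Topology PeriodPair

namespace Pool.Agent.Q187.BKL

open H667R3 Pool.Agent.W192.HK Pool.Agent.TH936.CM Pool.Agent.TH936.PU Pool.Agent.Q274.BKL
open Pool.Agent.W245.EB (scL mem_scL wpExcept_eq)
open Pool.Agent.Y698 (RR aR bR fR al bl tA tB LD al_ne bl_ne aR_coe bR_coe cX cY co aR_mul_bR
  tA_mem tB_mem tA_notMem tB_notMem two_tA two_tB isLat_neg_mem mul_al dwp_half ker_al)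

variable {L : PeriodPair} {Ω : ℂ}

/-- the elements killed by the conjugate of `α` -/
lemma ker_bl (hL : IsLat L RR Ω) {l : ℂ} (h : bl * l ∈ L.lattice) :
    l ∈ L.lattice ∨ l - tB Ω ∈ L.lattice := by
  obtain ⟨r, hr⟩ := (hL.mem _).1 h
  have hl : l = Ω * r / bl := by
    rw [← hr]
    have := bl_ne
    field_simp
  have h0 : bR ≠ 0 := fun h => bl_ne (by rw [← bR_coe, h]; rfl)
  -- parity
  have hred : r ∈ sp bR ∨ r - 1 ∈ sp bR := by
    have e : r = ((cX r : ℤ) : RR) + ((cY r : ℤ) : RR) * aR := by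
      apply Subtype.ext
      push_cast
      rw [aR_coe]
      exact co r
    have hb : bR = 1 - aR := rfl
    rcases Int.even_or_odd (cX r + cY r) with ⟨k, hk⟩ | ⟨k, hk⟩
    · left
      rw [Ideal.mem_span_singleton']
      refine ⟨(k : RR) * aR - ((cY r : ℤ) : RR), ?_⟩
      have hk' : ((cX r : ℤ) : RR) + ((cY r : ℤ) : RR) = k + k := by
        exact_mod_cast congrArg (fun t : ℤ => (t : RR)) hk
      linear_combination (k : RR) * aR_mul_bR - e - hk' - ((cY r : ℤ) : RR) * hb
    · right
      rw [Ideal.mem_span_singleton']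
      refine ⟨(k : RR) * aR - ((cY r : ℤ) : RR), ?_⟩
      have hk' : ((cX r : ℤ) : RR) + ((cY r : ℤ) : RR) = 2 * k + 1 := by
        exact_mod_cast congrArg (fun t : ℤ => (t : RR)) hk
      linear_combination (k : RR) * aR_mul_bR - e - hk' - ((cY r : ℤ) : RR) * hb
  rcases hred with h1 | h1
  · left
    rw [hl]
    have := (div_mem_iff hL h0 r).2 h1
    rwa [bR_coe] at this
  · right
    have := (div_mem_iff hL h0 (r - 1)).2 h1
    rw [bR_coe] at this
    convert this using 1
    rw [hl]
    unfold tB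
    push_cast
    ring

/-- multiplication by the conjugate of `α` -/
theorem mul_bl (hL : IsLat L RR Ω) {z : ℂ} (hz : bl * z ∉ L.lattice) :
    bl ^ 2 * ℘[L] (bl * z) = ℘[L] z + ℘[L] (z - tB Ω) - ℘[L] (tB Ω) := by
  have htA := tB_notMem hL
  have hper : ∀ z w : ℂ, z - w ∈ L.lattice → ℘[L] z = ℘[L] w := fun z w h => wp_per h
  set g : ℂ → ℂ := fun z => bl ^ 2 * ℘[L] (bl * z) - ℘[L] z - ℘[L] (z - tB Ω) with hg
  set G₀ : ℂ → ℂ := fun z => bl ^ 2 * ℘[L - (0 : ℂ)] (bl * z) - ℘[L - (0 : ℂ)] z -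
    ℘[L] (z - tB Ω) with hG₀
  have hnot : ∀ z : ℂ, z ∉ (scL L bl bl_ne).lattice → bl * z ∉ L.lattice ∧ z ∉ L.lattice ∧
      z - tB Ω ∉ L.lattice := by
    intro z hz
    have h1 : bl * z ∉ L.lattice := fun h => hz (mem_scL.2 h)
    refine ⟨h1, fun h => h1 ?_, fun h => h1 ?_⟩
    · have := hL.mul bR z h
      rwa [bR_coe] at this
    · have h2 := hL.mul bR _ h
      rw [bR_coe, mul_sub] at h2
      have h3 := add_mem h2 (tB_mem hL)
      rwa [sub_add_cancel] at h3
  have hdG : DifferentiableAt ℂ G₀ 0 := by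
    have h4 := (L.analyticAt_weierstrassPExcept 0).differentiableAt
    apply DifferentiableAt.sub
    · apply DifferentiableAt.sub
      · apply DifferentiableAt.const_mul
        have h5 : DifferentiableAt ℂ ℘[L - (0 : ℂ)] (bl * 0) := by rw [mul_zero]; exact h4
        exact DifferentiableAt.comp (0 : ℂ) h5 (by fun_prop)
      · exact h4
    · have h6 : (0 : ℂ) - tB Ω ∉ L.lattice := by
        rw [zero_sub]
        exact fun h => htA (isLat_neg_mem h)
      exact DifferentiableAt.comp (0 : ℂ) (f := fun z => z - tB Ω)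
        (hasDerivAt_weierstrassP L h6).differentiableAt (by fun_prop)
  have hev : ∀ᶠ z in 𝓝[≠] (0 : ℂ), z ∉ (scL L bl bl_ne).lattice := by
    filter_upwards [self_mem_nhdsWithin, mem_nhdsWithin_of_mem_nhds
      ((scL L bl bl_ne).compl_lattice_sdiff_singleton_mem_nhds 0)] with w hw hw'
    simp_all
  have heq : ∀ᶠ z in 𝓝[≠] (0 : ℂ), g z = G₀ z := by
    filter_upwards [self_mem_nhdsWithin] with z hz0
    have hz0' : z ≠ 0 := hz0
    simp only [hg, hG₀]
    rw [wpExcept_eq (mul_ne_zero bl_ne hz0'), wpExcept_eq hz0']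
    have := bl_ne
    field_simp
    ring
  have hconst := eq_of_periodic (scL L bl bl_ne) g ?_ ?_ G₀ hdG heq
  · have hzs : z ∉ (scL L bl bl_ne).lattice := fun h => hz (mem_scL.1 h)
    have hlim1 : Tendsto G₀ (𝓝[≠] 0) (𝓝 (G₀ 0)) :=
      (hdG.continuousAt.tendsto).mono_left nhdsWithin_le_nhds
    have hlim2 : Tendsto G₀ (𝓝[≠] 0) (𝓝 (g z)) := by
      refine tendsto_const_nhds.congr' ?_
      filter_upwards [hev, heq] with w hw1 hw2
      rw [← hw2]
      exact hconst z w hzs hw1
    have h1 := tendsto_nhds_unique hlim2 hlim1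
    simp only [hg, hG₀, mul_zero, zero_sub, L.weierstrassPExcept_zero, L.weierstrassP_neg] at h1
    linear_combination h1
  · intro z hz
    obtain ⟨h1, h2, h3⟩ := hnot z hz
    apply DifferentiableAt.sub
    · apply DifferentiableAt.sub
      · apply DifferentiableAt.const_mul
        exact DifferentiableAt.comp z (hasDerivAt_weierstrassP L h1).differentiableAt (by fun_prop)
      · exact (hasDerivAt_weierstrassP L h2).differentiableAt
    · exact DifferentiableAt.comp z (f := fun z => z - tB Ω)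
        (hasDerivAt_weierstrassP L h3).differentiableAt (by fun_prop)
  · intro z hz l hl
    have hl' : bl * l ∈ L.lattice := mem_scL.1 hl
    simp only [hg]
    have e1 : ℘[L] (bl * (z + l)) = ℘[L] (bl * z) := hper _ _ (by rwa [mul_add, add_sub_cancel_left])
    rw [e1]
    rcases ker_bl hL hl' with h | h
    · have e2 : ℘[L] (z + l) = ℘[L] z := hper _ _ (by rwa [add_sub_cancel_left])
      have e3 : ℘[L] (z + l - tB Ω) = ℘[L] (z - tB Ω) := hper _ _ (by
        have e : z + l - tB Ω - (z - tB Ω) = l := by ring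
        rwa [e])
      rw [e2, e3]
    · have e2 : ℘[L] (z + l) = ℘[L] (z - tB Ω) := hper _ _ (by
        have e : z + l - (z - tB Ω) = (l - tB Ω) + 2 * tB Ω := by ring
        rw [e]
        exact add_mem h (two_tB hL))
      have e3 : ℘[L] (z + l - tB Ω) = ℘[L] z := hper _ _ (by
        have e : z + l - tB Ω - z = l - tB Ω := by ring
        rwa [e])
      rw [e2, e3]
      ring

/-- the identity for a multiplication of degree two -/
lemma zb_aux {c t : ℂ} (hc : c ≠ 0) (ht : t ∉ L.lattice) (h2t : 2 * t ∈ L.lattice)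
    (hnot : ∀ z, c * z ∉ L.lattice → z ∉ L.lattice ∧ z - t ∉ L.lattice ∧ z + t ∉ L.lattice)
    (hmul : ∀ z, c * z ∉ L.lattice → c ^ 2 * ℘[L] (c * z) = ℘[L] z + ℘[L] (z - t) - ℘[L] t)
    {z : ℂ} (hz : c * z ∉ L.lattice) :
    c * zeta L (c * z) = 2 * zeta L z + ℘'[L] z / (2 * (℘[L] z - ℘[L] t)) + ℘[L] t * z := by
  have hdt : ℘'[L] t = 0 := dwp_half h2t
  -- the function and its derivative
  have hq : ∀ z, c * z ∉ L.lattice → ℘'[L] z / (2 * (℘[L] z - ℘[L] t)) =
      zeta L (z + t) - zeta L z - zeta L t := by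
    intro z hz
    obtain ⟨h1, h2, h3⟩ := hnot z hz
    rw [zeta_add L h1 ht h3 h2, hdt, sub_zero]
    ring
  set F : ℂ → ℂ := fun z => c * zeta L (c * z) - zeta L z - zeta L (z + t) - ℘[L] t * z with hF
  have hder : ∀ z, c * z ∉ L.lattice → HasDerivAt F 0 z := by
    intro z hz
    obtain ⟨h1, h2, h3⟩ := hnot z hz
    have d1 : HasDerivAt (fun z => zeta L (c * z)) (-℘[L] (c * z) * c) z := by
      have h0 : HasDerivAt (fun z : ℂ => c * z) c z := by
        simpa using (hasDerivAt_id z).const_mul c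
      exact (hasDerivAt_zeta L hz).comp z h0
    have d2 : HasDerivAt (fun z => zeta L (z + t)) (-℘[L] (z + t)) z :=
      (hasDerivAt_zeta L h3).comp_add_const z t
    have d3 : HasDerivAt (fun z => ℘[L] t * z) (℘[L] t) z := by
      simpa using (hasDerivAt_id z).const_mul (℘[L] t)
    have d4 := (((d1.const_mul c).sub (hasDerivAt_zeta L h1)).sub d2).sub d3
    refine d4.congr_deriv ?_
    have e := hmul z hz
    have e2 : ℘[L] (z + t) = ℘[L] (z - t) := wp_per (by
      have e : z + t - (z - t) = 2 * t := by ring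
      rwa [e])
    rw [e2]
    linear_combination (-1 : ℂ) * e
  have hset : ∀ x, x ∈ ((scL L c hc).lattice : Set ℂ)ᶜ ↔ c * x ∉ L.lattice := by
    intro x
    rw [Set.mem_compl_iff, SetLike.mem_coe, mem_scL]
  have key : Set.EqOn F (fun _ => F z) ((scL L c hc).lattice : Set ℂ)ᶜ := by
    apply IsOpen.eqOn_of_deriv_eq (𝕜 := ℂ) (isOpen_compl _) (isPreconnected_compl _) (x := z)
    · intro x hx
      exact (hder x ((hset x).mp hx)).differentiableAt.differentiableWithinAt
    · exact differentiableOn_const _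
    · intro x hx
      rw [(hder x ((hset x).mp hx)).deriv, deriv_const]
    · exact (hset z).mpr hz
    · rfl
  have hnz : c * (-z) ∉ L.lattice := by
    rw [mul_neg]
    exact fun h => hz (isLat_neg_mem h)
  have h1 : F (-z) = F z := key ((hset _).mpr hnz)
  simp only [hF] at h1
  have q1 := hq z hz
  have q2 := hq (-z) hnz
  rw [L.derivWeierstrassP_neg, L.weierstrassP_neg, zeta_neg] at q2
  rw [mul_neg, zeta_neg, zeta_neg] at h1
  have e3 : zeta L (-z + t) = -(℘'[L] z / (2 * (℘[L] z - ℘[L] t))) - zeta L z + zeta L t := by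
    have : -℘'[L] z / (2 * (℘[L] z - ℘[L] t)) = -(℘'[L] z / (2 * (℘[L] z - ℘[L] t))) := by ring
    rw [this] at q2
    linear_combination (-1 : ℂ) * q2
  rw [e3] at h1
  linear_combination (-1 / 2 : ℂ) * h1 - (1 / 2 : ℂ) * q1

theorem t_ZB : S_ZB := by
  intro L Ω h
  have hL := h.lat
  constructor
  · intro z hz
    have key := zb_aux (c := bl) (t := tB Ω) bl_ne (tB_notMem hL) (two_tB hL) (by
      intro z hz
      refine ⟨fun h1 => hz ?_, fun h1 => hz ?_, fun h1 => hz ?_⟩
      · have := hL.mul bR z h1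
        rwa [bR_coe] at this
      · have h2 := hL.mul bR _ h1
        rw [bR_coe, mul_sub] at h2
        have h3 := add_mem h2 (tB_mem hL)
        rwa [sub_add_cancel] at h3
      · have h2 := hL.mul bR _ h1
        rw [bR_coe, mul_add] at h2
        have h3 := sub_mem h2 (tB_mem hL)
        rwa [add_sub_cancel_right] at h3) (fun z hz => mul_bl hL hz) hz
    rw [key, h.eb]
    ring
  · intro z hz
    have key := zb_aux (c := al) (t := tA Ω) al_ne (tA_notMem hL) (two_tA hL) (by
      intro z hz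
      refine ⟨fun h1 => hz ?_, fun h1 => hz ?_, fun h1 => hz ?_⟩
      · have := hL.mul aR z h1
        rwa [aR_coe] at this
      · have h2 := hL.mul aR _ h1
        rw [aR_coe, mul_sub] at h2
        have h3 := add_mem h2 (tA_mem hL)
        rwa [sub_add_cancel] at h3
      · have h2 := hL.mul aR _ h1
        rw [aR_coe, mul_add] at h2
        have h3 := sub_mem h2 (tA_mem hL)
        rwa [add_sub_cancel_right] at h3) (fun z hz => mul_al hL hz) hz
    rw [key, h.ea]

end Pool.Agent.Q187.BKL
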